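import Pool.Agent.TH673.VG.Crit
import Pool.Agent.TH673.VG.CritInd
import Pool.Agent.TH673.VG.ChainInd
import Pool.Agent.TH673.VG.Sym
import Pool.Agent.TH673.VG.Ind
import Pool.Agent.TH673.VG.IdxTwo

/-! The value group criteria for quaternionic structures, assembled from the parts `TH673.VG`
(proved in the starting file MP_d26ff6_al). -/

set_option autoImplicit false

namespace Pool.Agent.Q300.FT

open Pool.Agent.H315R3.ETC Pool.Agent.TH673.VG

theorem crit_abs (S : QData) (hS : IsQuat S) (hfin : Finite S.G) :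
    (Elem S ↔ ∀ H : Subgroup S.G, H ≠ ⊤ → Step S H) ∧
    (Elem S ↔ ∀ H : Subgroup S.G, H ≠ ⊤ → Common S H) ∧
    (Elem S ↔ ∀ H : Subgroup S.G, (∀ a : S.G, IndexTwo S a → a ∈ H) → 4 ≤ Nat.card H →
      8 ≤ H.index → StepTwo S H) ∧
    (Elem S ↔ Chain S ⊤) ∧
    (Elem S ↔ ∃ L : Subgroup S.G, Chain S L ∧ L.index ≤ 4) := by
  have h3 : Elem S → Chain S ⊤ := fun h => chain_of_goodAll (goodAll_of_elem hS h)
  have h4 : (⊤ : Subgroup S.G).index ≤ 4 := by rw [Subgroup.index_top]; norm_num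
  have h1 : Elem S → ∀ H : Subgroup S.G, H ≠ ⊤ → Step S H := stepAll_of_elem hS
  have h2 : (∀ H : Subgroup S.G, H ≠ ⊤ → Step S H) → Elem S := fun h =>
    elem_of_step hS fun H hH _ => stepTwo_of_step (h H hH)
  refine ⟨⟨h1, h2⟩, ⟨fun h H hH => (step_iff_common hS H).1 (h1 h H hH),
    fun h => h2 fun H hH => (step_iff_common hS H).2 (h H hH)⟩,
    ⟨fun h H _ _ hi => ?_, fun h => ?_⟩,
    ⟨h3, fun h => elem_of_chain hS h h4⟩,
    ⟨fun h => ⟨⊤, h3 h, h4⟩, fun ⟨_, hL, hi⟩ => elem_of_chain hS hL hi⟩⟩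
  · refine stepTwo_of_step (h1 h H ?_)
    rintro rfl
    rw [Subgroup.index_top] at hi
    omega
  · refine elem_of_step hS fun H hH hI => ?_
    by_cases hi : 8 ≤ H.index
    · by_cases hc : 4 ≤ Nat.card H
      · exact h H hI hc hi
      · exact stepTwo_of_card hS H hH (by omega)
    · exact stepTwo_of_step (step_of_index hS H hH (by omega))


theorem prod_abs (S : QData) (hS : IsQuat S) (hfin : Finite S.G) :
    (ProdTwo S ↔ ProductsClosed S) ∧
    (ProdTwo S ↔ TripleProducts S ∧ IndexTwoAbove S) ∧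
    (ProdTwo S ↔ TripleProducts S ∧ MaximalDichotomy S) ∧
    (ProdTwo S ↔ TripleProducts S ∧ Elem S) ∧
    (ProdTwo S ↔ UniversalBelow S) ∧
    (ProdTwo S ↔ UniversalKernels S) ∧
    (ProdTwo S ↔ IdxGroup S = ⊤) := by
  have key : UniversalKernels S → Elem S ∧ ProdTwo S := fun h =>
    ⟨elem_of_kernels hS hfin h, prodTwo_of_elem hS (elem_of_kernels hS hfin h) h⟩
  have h1 : ProductsClosed S → UniversalBelow S := fun h => below_of_star hS (star_of_closed hS h)
  have h2 : TripleProducts S ∧ IndexTwoAbove S → UniversalBelow S := fun h =>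
    below_of_star hS (star_of_index hS h.1 h.2)
  have h2' : TripleProducts S ∧ MaximalDichotomy S → UniversalBelow S := fun h =>
    below_of_star hS (star_of_dichotomy hS h.1 h.2)
  have h3 : UniversalBelow S → UniversalKernels S := kernels_of_below
  have h4 : ProdTwo S → UniversalBelow S := fun h => h1 (good_of_prodTwo h).closed
  exact ⟨⟨fun h => (good_of_prodTwo h).closed, fun h => (key (h3 (h1 h))).2⟩,
    ⟨fun h => ⟨(good_of_prodTwo h).triple, (good_of_prodTwo h).index⟩,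
      fun h => (key (h3 (h2 h))).2⟩,
    ⟨fun h => ⟨(good_of_prodTwo h).triple, dichotomy_of_closed hS (good_of_prodTwo h).closed⟩,
      fun h => (key (h3 (h2' h))).2⟩,
    ⟨fun h => ⟨(good_of_prodTwo h).triple, (key (h3 (h4 h))).1⟩,
      fun h => prodTwo_of_elem_tp hS h.2 h.1⟩,
    ⟨h4, fun h => (key (h3 h)).2⟩, ⟨fun h => h3 (h4 h), fun h => (key h).2⟩,
    ⟨gen_of_prodTwo, fun h => prodTwo_of_elem_tp hS (elem_of_core hS (by
      rw [core_top_of_gen h, Subgroup.index_top]; norm_num)) (triple_of_gen hS h)⟩⟩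


end Pool.Agent.Q300.FT
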