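import Pool.Agent.Q300.FT.Tr
import Pool.Agent.Q300.FT.Abs

/-! The norm group criterion for elementary type. -/

set_option autoImplicit false

namespace Pool.Agent.Q300.FT

open Pool.Agent.TH188.ET Pool.Agent.H315R3.ETC Pool.Agent.TH673.VG

/-- the quaternionic structure of `F` is of elementary type -/
def ElementaryType (F : Type*) [Field F] : Prop := ∃ S : QData, Elem S ∧ IsStructureOf F S

theorem elementary_iff {F : Type*} [Field F] {S : QData} (hS : IsStructureOf F S) :
    ElementaryType F ↔ Elem S :=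
  ⟨fun ⟨_, hT, hTs⟩ => Elem.iso _ _ hT (iso_of_structure hTs hS), fun h => ⟨S, h, hS⟩⟩

theorem crit {F : Type*} [Field F] (h2 : (2 : F) ≠ 0) (hfin : FinSq F) :
    (ElementaryType F ↔ ∀ H : Subgroup Fˣ, squares F ≤ H → H ≠ ⊤ → NormStep H) ∧
    (ElementaryType F ↔ ∀ H : Subgroup Fˣ, squares F ≤ H → H ≠ ⊤ → AlgebraStep H) ∧
    (ElementaryType F ↔ ∀ H : Subgroup Fˣ, (∀ a : Fˣ, (normGroup a).index ≤ 2 → a ∈ H) →
      4 ≤ (squares F).relIndex H → 8 ≤ H.index → NormStepTwo H) ∧
    (ElementaryType F ↔ NormChain (⊤ : Subgroup Fˣ)) ∧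
    (ElementaryType F ↔ ∃ L : Subgroup Fˣ, NormChain L ∧ L.index ≤ 4) := by
  obtain ⟨S, hS, hSfin, hSq⟩ := exists_structure h2 hfin
  have hE := elementary_iff hS
  obtain ⟨φ, hs, hk, hn, h0, hq⟩ := hS
  have hz : ∀ a b : Fˣ, S.q (φ a) (φ b) = S.zero ↔ NormFrom a b := by
    intro a b
    rw [← qiso_one h2, ← h0, ← map_one φ]
    exact hq a b 1 1
  have hq' : ∀ a b c d : Fˣ, S.q (φ a) (φ b) = S.q (φ c) (φ d) ↔ QIso a b c d := hq
  obtain ⟨c1, c2, c3, c4, c5⟩ := crit_abs S hSq hSfin
  -- subgroups of `S.G` and subgroups of `F*`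
  have all_iff : ∀ (P : Subgroup Fˣ → Prop) (Q : Subgroup S.G → Prop),
      (∀ H : Subgroup S.G, P (H.comap φ) ↔ Q H) →
      ((∀ H : Subgroup S.G, H ≠ ⊤ → Q H) ↔
        ∀ H : Subgroup Fˣ, squares F ≤ H → H ≠ ⊤ → P H) := by
    intro P Q hPQ
    constructor
    · intro h H hH hT
      have := (hPQ (H.map φ)).2 (h _ (map_ne_top hs hk hH hT))
      rwa [comap_map hk hH] at this
    · intro h H hT
      exact (hPQ H).1 (h _ (squares_le_comap hk H) (comap_ne_top hs hT))
  refine ⟨?_, ?_, ?_, ?_, ?_⟩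
  · rw [hE, c1]
    exact all_iff _ _ (step_iff hs hz)
  · rw [hE, c2]
    exact all_iff _ _ (algebraStep_iff hs hq')
  · rw [hE, c3]
    constructor
    · intro h H hI hc hi
      have hH : squares F ≤ H := by
        intro b hb
        apply hI
        have ht : normGroup b = ⊤ := by
          rw [eq_top_iff]
          intro c _
          rw [← ker_eq hk] at hb
          exact NormFrom.of_sq h2 b c ((hk b).1 hb)
        rw [ht, Subgroup.index_top]
        norm_num
      have e := comap_map hk hH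
      have h1 := h (H.map φ) (by
        intro a ha
        obtain ⟨a, rfl⟩ := hs a
        exact Subgroup.mem_map_of_mem φ (hI a ((index_two_iff hs hk hSfin hz a).2 ha))) (by
        rw [← Subgroup.relIndex_ker, ker_eq hk]
        exact hc) (by
        rw [← Subgroup.index_comap_of_surjective _ hs, e]
        exact hi)
      rw [← stepTwo_iff hs hk hz, e] at h1
      exact h1
    · intro h H hI hc hi
      rw [← stepTwo_iff hs hk hz]
      refine h _ ?_ ?_ ?_
      · intro a ha
        exact hI _ ((index_two_iff hs hk hSfin hz a).1 ha)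
      · rw [← ker_eq hk, Subgroup.relIndex_ker, Subgroup.map_comap_eq_self_of_surjective hs]
        exact hc
      · rw [Subgroup.index_comap_of_surjective _ hs]
        exact hi
  · rw [hE, c4, chain_iff hs hk hq', ← MonoidHom.range_eq_map, MonoidHom.range_eq_top.2 hs]
    exact ⟨fun h => ⟨le_top, h⟩, fun h => h.2⟩
  · rw [hE, c5]
    constructor
    · rintro ⟨L, hL, hi⟩
      refine ⟨L.comap φ, (chain_iff hs hk hq' _).2 ⟨squares_le_comap hk L, ?_⟩, ?_⟩
      · rw [Subgroup.map_comap_eq_self_of_surjective hs]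
        exact hL
      · rw [Subgroup.index_comap_of_surjective _ hs]
        exact hi
    · rintro ⟨L, hL, hi⟩
      obtain ⟨h1, h3⟩ := (chain_iff hs hk hq' L).1 hL
      refine ⟨L.map φ, h3, ?_⟩
      rw [← Subgroup.index_comap_of_surjective _ hs, comap_map hk h1]
      exact hi

end Pool.Agent.Q300.FT
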