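import Pool.Agent.Q300.FT.One
import Pool.Agent.H315R3.ETC.Rec
import Pool.Agent.H315R3.ETC.Gen

/-! Quaternion algebras whose slots have independent norm groups. -/

set_option autoImplicit false

namespace Pool.Agent.Q300.FT

open Pool.Agent.TH188.ET Pool.Agent.H315R3.ETC Pool.Agent.TH673.VG

section defs

variable {F : Type*} [Field F]

/-- `u` is a slot of the quaternion algebra `(a,b)`: it is of the form `(u,x)`, that is, split by
`F(√u)` -/
def Slot (a b u : Fˣ) : Prop := ∃ x : Fˣ, QIso u x a b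

/-- any two slots `u`, `v` of `(a,b)` which differ modulo squares have `N(u) ∩ N(v) = F*²` -/
def IndependentSlots (a b : Fˣ) : Prop :=
  ∀ u v : Fˣ, u * v ∉ squares F → Slot a b u → Slot a b v →
    normGroup u ⊓ normGroup v ≤ squares F

end defs

section tr

variable {F : Type*} [Field F] {S : QData} {φ : Fˣ →* S.G}

lemma structure_of_iso {T : QData} (hS : IsStructureOf F S) (h : Iso T S)
    (hT : T.q 1 1 = T.zero) : IsStructureOf F T := by
  obtain ⟨φ, hs, hk, hn, h0, hq⟩ := hS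
  obtain ⟨f, hf, hfq⟩ := h
  refine ⟨f.symm.toMonoidHom.comp φ, f.symm.surjective.comp hs, ?_, ?_, hT, ?_⟩
  · intro a
    rw [← hk]
    show f.symm (φ a) = 1 ↔ _
    rw [MulEquiv.map_eq_one_iff]
  · show f.symm (φ (-1)) = T.neg
    rw [hn, ← hf, MulEquiv.symm_apply_apply]
  · intro a b c d
    show T.q (f.symm (φ a)) (f.symm (φ b)) = T.q (f.symm (φ c)) (f.symm (φ d)) ↔ _
    rw [hfq, MulEquiv.apply_symm_apply, MulEquiv.apply_symm_apply, MulEquiv.apply_symm_apply,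
      MulEquiv.apply_symm_apply]
    exact hq a b c d

lemma ext_q_one {T : QData} (hT : IsQuat T) : (ext T).q 1 1 = (ext T).zero := by
  show ((T.q 1 1, pw (pw T.neg 1) 1 * pw 1 1 * pw 1 1) : T.Q × T.G) = (T.zero, 1)
  rw [q_one hT]
  simp [pw]

lemma iso_of_both {T : QData} (hS : IsStructureOf F S) (hT : IsStructureOf F T) : Iso T S :=
  iso_of_structure hT hS

variable (hs : Function.Surjective φ) (hk : ∀ a : Fˣ, φ a = 1 ↔ ∃ b : Fˣ, a = b ^ 2)
  (hz : ∀ a b : Fˣ, S.q (φ a) (φ b) = S.zero ↔ NormFrom a b)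
  (hq : ∀ a b c d : Fˣ, S.q (φ a) (φ b) = S.q (φ c) (φ d) ↔ QIso a b c d)

include hk in
lemma mem_squares_iff (a : Fˣ) : a ∈ squares F ↔ φ a = 1 := by
  rw [← ker_eq hk, MonoidHom.mem_ker]

include hs hk in
lemma card_eq : Nat.card S.G = (squares F).index := by
  rw [← ker_eq hk, Subgroup.index_ker, MonoidHom.range_eq_top.2 hs, Subgroup.card_top]

include hs hk hz hq in
lemma indep_iff (hSq : IsQuat S) (a b : Fˣ) :
    IndependentSlots a b ↔ Indep S (S.q (φ a) (φ b)) := by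
  have hne : ∀ u v : Fˣ, u * v ∉ squares F ↔ φ u ≠ φ v := by
    intro u v
    rw [mem_squares_iff hk, map_mul, not_iff_not]
    constructor
    · intro h
      have h1 := hSq.exp2 (φ v)
      calc φ u = φ u * (φ v * φ v) := by rw [h1, mul_one]
        _ = φ u * φ v * φ v := by rw [mul_assoc]
        _ = φ v := by rw [h, one_mul]
    · intro h
      rw [h]
      exact hSq.exp2 _
  constructor
  · rintro h u v huv ⟨x, hx⟩ ⟨y, hy⟩ d h1 h3
    obtain ⟨u, rfl⟩ := hs u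
    obtain ⟨v, rfl⟩ := hs v
    obtain ⟨x, rfl⟩ := hs x
    obtain ⟨y, rfl⟩ := hs y
    obtain ⟨d, rfl⟩ := hs d
    rw [← mem_squares_iff hk]
    exact h u v ((hne u v).2 huv) ⟨x, (hq _ _ _ _).1 hx⟩ ⟨y, (hq _ _ _ _).1 hy⟩
      ⟨(hz _ _).1 h1, (hz _ _).1 h3⟩
  · rintro h u v huv ⟨x, hx⟩ ⟨y, hy⟩ d ⟨h1, h3⟩
    rw [mem_squares_iff hk]
    exact h (φ u) (φ v) ((hne u v).1 huv) ⟨φ x, (hq _ _ _ _).2 hx⟩ ⟨φ y, (hq _ _ _ _).2 hy⟩
      (φ d) ((hz _ _).2 h1) ((hz _ _).2 h3)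

include hs hz in
lemma ncard_eq (hk : ∀ a : Fˣ, φ a = 1 ↔ ∃ b : Fˣ, a = b ^ 2) (a : Fˣ) :
    {b : S.G | S.q (φ a) b = S.zero}.ncard = (squares F).relIndex (normGroup a) := by
  rw [← ker_eq hk, Subgroup.relIndex_ker, ← Nat.card_coe_set_eq]
  congr 1
  have : {b : S.G | S.q (φ a) b = S.zero} = ((normGroup a).map φ : Set S.G) := by
    ext b
    constructor
    · intro hb
      obtain ⟨b, rfl⟩ := hs b
      exact Subgroup.mem_map_of_mem φ ((hz a b).1 hb)
    · rintro ⟨c, hc, rfl⟩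
      exact (hz a c).2 hc
  rw [this]
  rfl

end tr

theorem slots {F : Type*} [Field F] (h2 : (2 : F) ≠ 0) (hfin : FinSq F) :
    -- recognition of group extensions by one quaternion algebra
    ((∃ i : Fˣ, i ^ 2 = -1) → 4 ≤ (squares F).index →
      ((∃ a b : Fˣ, ¬ NormFrom a b ∧ IndependentSlots a b) ↔
        ∃ T : QData, IsQuat T ∧ T.neg = 1 ∧ 2 * Nat.card T.G = (squares F).index ∧
          IsStructureOf F (ext T))) ∧
    -- transitive splitting
    ((∃ i : Fˣ, i ^ 2 = -1) →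
      (∀ a b c : Fˣ, b ∉ squares F → NormFrom a b → NormFrom b c → NormFrom a c) →
      ElementaryType F) ∧
    -- norm groups with at most four square classes
    ((∃ i : Fˣ, i ^ 2 = -1) →
      (∀ a : Fˣ, a ∉ squares F → (squares F).relIndex (normGroup a) ≤ 4) → ElementaryType F) ∧
    -- arbitrary `-1`: all slots but one are rigid
    (∀ a b : Fˣ, (∀ c : Fˣ, ¬ QIso c c a b) → IndependentSlots a b →
      ∃ w : Fˣ, ∀ v : Fˣ, v * w ∉ squares F → Slot a b v →
        ∀ e ∈ normGroup v, e ∈ squares F ∨ -v * e ∈ squares F) := by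
  obtain ⟨S, hS, hSfin, hSq⟩ := exists_structure h2 hfin
  have hE := elementary_iff hS
  have hS' := hS
  obtain ⟨φ, hs, hk, hn, h0, hq⟩ := hS
  have hz : ∀ a b : Fˣ, S.q (φ a) (φ b) = S.zero ↔ NormFrom a b := by
    intro a b
    rw [← qiso_one h2, ← h0, ← map_one φ]
    exact hq a b 1 1
  have hq' : ∀ a b c d : Fˣ, S.q (φ a) (φ b) = S.q (φ c) (φ d) ↔ QIso a b c d := hq
  have hneg : (∃ i : Fˣ, i ^ 2 = -1) → S.neg = 1 := by
    rintro ⟨i, hi⟩
    rw [← hn, hk]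
    exact ⟨i, hi.symm⟩
  have hc := card_eq hs hk
  have htr : S.neg = 1 →
      (∀ a b c : S.G, b ≠ 1 → S.q a b = S.zero → S.q b c = S.zero → S.q a c = S.zero) →
      Elem S := fun hn1 h => main S hSq hSfin hn1 h
  refine ⟨?_, ?_, ?_, ?_⟩
  · intro hi h4
    have hn1 := hneg hi
    constructor
    · rintro ⟨a, b, hab, hI⟩
      have hne : S.q (φ a) (φ b) ≠ S.zero := fun h => hab ((hz a b).1 h)
      obtain ⟨T, hT, hTn, hTc, hiso⟩ := rec_mp hSq hn1 hSfin hne rfl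
        ((indep_iff hs hk hz hq' hSq a b).1 hI)
      exact ⟨T, hT, hTn, by rw [hTc, hc], structure_of_iso hS' hiso (ext_q_one hT)⟩
    · rintro ⟨T, hT, hTn, hTc, hTs⟩
      obtain ⟨t, ht, ⟨g, k, hgk⟩, hI⟩ := rec_mpr hSq (by rw [hc]; exact h4) hT hTn
        (by rw [hTc, hc]) (iso_of_both hS' hTs)
      obtain ⟨a, rfl⟩ := hs g
      obtain ⟨b, rfl⟩ := hs k
      subst hgk
      exact ⟨a, b, fun h => ht ((hz a b).2 h), (indep_iff hs hk hz hq' hSq a b).2 hI⟩
  · intro hi h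
    rw [hE]
    refine htr (hneg hi) ?_
    intro a b c hb h1 h3
    obtain ⟨a, rfl⟩ := hs a
    obtain ⟨b, rfl⟩ := hs b
    obtain ⟨c, rfl⟩ := hs c
    exact (hz _ _).2 (h a b c (fun h5 => hb ((mem_squares_iff hk b).1 h5)) ((hz _ _).1 h1)
      ((hz _ _).1 h3))
  · intro hi h
    rw [hE]
    refine htr (hneg hi) (trans_of_small hSq (hneg hi) hSfin ?_)
    intro a ha
    obtain ⟨a, rfl⟩ := hs a
    rw [ncard_eq hs hz hk]
    exact h a fun h5 => ha ((mem_squares_iff hk a).1 h5)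
  · intro a b hl hI
    obtain ⟨w, hw⟩ := rigid_slots hSq (t := S.q (φ a) (φ b)) (by
      intro c hc
      obtain ⟨c, rfl⟩ := hs c
      exact hl c ((hq' _ _ _ _).1 hc)) ((indep_iff hs hk hz hq' hSq a b).1 hI)
    obtain ⟨w, rfl⟩ := hs w
    refine ⟨w, fun v hv hsl e he => ?_⟩
    obtain ⟨x, hx⟩ := hsl
    have hvw : φ v ≠ φ w := by
      intro h
      apply hv
      rw [mem_squares_iff hk, map_mul, h]
      exact hSq.exp2 _
    rcases hw (φ v) hvw ⟨φ x, (hq' _ _ _ _).2 hx⟩ (φ e) ((hz _ _).2 he) with h | h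
    · exact Or.inl ((mem_squares_iff hk e).2 h)
    · right
      rw [mem_squares_iff hk, map_mul, h, neg_eq_neg_one_mul, map_mul, hn]
      exact hSq.exp2 _

end Pool.Agent.Q300.FT
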