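import Pool.Agent.TH673.VG.FieldInd
import Pool.Agent.TH673.VG.CritDefs
import Pool.Agent.TH673.VG.Defs

/-! Conditions on the norm groups of a field and on the value groups of its quaternionic
structure: transfer. -/

set_option autoImplicit false

namespace Pool.Agent.Q300.FT

open Pool.Agent.TH188.ET Pool.Agent.H315R3.ETC Pool.Agent.TH673.VG

/-- the group of squares of `F*` -/
def squares (F : Type*) [Field F] : Subgroup Fˣ := (powMonoidHom 2 : Fˣ →* Fˣ).range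

section defs

variable {F : Type*} [Field F]

/-- some `a` outside `H` satisfies `N(ah) ⊆ N(a) H` for all `h ∈ H` -/
def NormStep (H : Subgroup Fˣ) : Prop :=
  ∃ a : Fˣ, a ∉ H ∧ ∀ h ∈ H, normGroup (a * h) ≤ normGroup a ⊔ H

/-- some `a` outside `H` and some `g ∈ H` satisfy `N(ah) ⊆ N(a) H ∪ N(ag) H ∪ N(a) N(ag)` for all
`h ∈ H` -/
def NormStepTwo (H : Subgroup Fˣ) : Prop :=
  ∃ a : Fˣ, a ∉ H ∧ ∃ g ∈ H, ∀ h ∈ H, ∀ x ∈ normGroup (a * h),
    x ∈ normGroup a ⊔ H ∨ x ∈ normGroup (a * g) ⊔ H ∨ x ∈ normGroup a ⊔ normGroup (a * g)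

/-- for some `a` outside `H`: every quaternion algebra which is of the form `(a,x)` and of the form
`(h,y)` with `h ∈ H` is of the form `(a,k)` with `k ∈ H` -/
def AlgebraStep (H : Subgroup Fˣ) : Prop :=
  ∃ a : Fˣ, a ∉ H ∧ ∀ h ∈ H, ∀ x y : Fˣ, QIso a x h y → ∃ k ∈ H, QIso a x a k

/-- `a` is good over `L`: for every `H ≥ L` with `a ∉ H` there is `g ∈ H` such that every quaternion
algebra which is of the form `(a,x)` and of the form `(h,y)` with `h ∈ H` is of the form `(a,k)` with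
`k ∈ H` or of the form `(g,z)` -/
def GoodFor (L : Subgroup Fˣ) (a : Fˣ) : Prop :=
  ∀ H : Subgroup Fˣ, L ≤ H → a ∉ H → ∃ g ∈ H, ∀ h ∈ H, ∀ x y : Fˣ, QIso a x h y →
    (∃ k ∈ H, QIso a x a k) ∨ ∃ z : Fˣ, QIso a x g z

/-- the subgroups of `F*` obtained from the group of squares by successively adjoining elements
which are good over the group already obtained -/
inductive NormChain : Subgroup Fˣ → Prop
  | base : NormChain (squares F)
  | step (L : Subgroup Fˣ) (a : Fˣ) : NormChain L → GoodFor L a →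
      NormChain (L ⊔ Subgroup.zpowers a)

end defs

section tr

variable {F : Type*} [Field F] {S : QData} {φ : Fˣ →* S.G}

lemma ker_eq (hk : ∀ a : Fˣ, φ a = 1 ↔ ∃ b : Fˣ, a = b ^ 2) : φ.ker = squares F := by
  ext a
  rw [MonoidHom.mem_ker, hk, squares, MonoidHom.mem_range]
  constructor
  · rintro ⟨b, hb⟩
    exact ⟨b, hb.symm⟩
  · rintro ⟨b, hb⟩
    exact ⟨b, hb.symm⟩

lemma comap_map (hk : ∀ a : Fˣ, φ a = 1 ↔ ∃ b : Fˣ, a = b ^ 2) {H : Subgroup Fˣ}
    (hH : squares F ≤ H) : (H.map φ).comap φ = H :=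
  Subgroup.comap_map_eq_self (by rw [ker_eq hk]; exact hH)

lemma squares_le_comap (hk : ∀ a : Fˣ, φ a = 1 ↔ ∃ b : Fˣ, a = b ^ 2) (H : Subgroup S.G) :
    squares F ≤ H.comap φ := by
  rw [← ker_eq hk]
  exact MonoidHom.ker_le_comap φ H

lemma map_ne_top (hs : Function.Surjective φ) (hk : ∀ a : Fˣ, φ a = 1 ↔ ∃ b : Fˣ, a = b ^ 2)
    {H : Subgroup Fˣ} (hH : squares F ≤ H) (h : H ≠ ⊤) : H.map φ ≠ ⊤ := by
  intro h1
  apply h
  rw [← comap_map hk hH, h1, Subgroup.comap_top]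

lemma comap_ne_top (hs : Function.Surjective φ) {H : Subgroup S.G} (h : H ≠ ⊤) :
    H.comap φ ≠ ⊤ := by
  intro h1
  apply h
  rw [← Subgroup.map_comap_eq_self_of_surjective hs H, h1, ← MonoidHom.range_eq_map,
    MonoidHom.range_eq_top.2 hs]

variable (hs : Function.Surjective φ) (hk : ∀ a : Fˣ, φ a = 1 ↔ ∃ b : Fˣ, a = b ^ 2)
  (hz : ∀ a b : Fˣ, S.q (φ a) (φ b) = S.zero ↔ NormFrom a b)

include hs hz in
/-- membership in `N(a) H` -/
lemma mem_sup_iff (a x : Fˣ) (H : Subgroup S.G) :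
    x ∈ normGroup a ⊔ H.comap φ ↔ ∃ v k : S.G, S.q (φ a) v = S.zero ∧ k ∈ H ∧ v * k = φ x := by
  constructor
  · intro h
    obtain ⟨v, hv, k, hk', e⟩ := Subgroup.mem_sup.1 h
    exact ⟨φ v, φ k, (hz a v).2 hv, hk', by rw [← map_mul, e]⟩
  · rintro ⟨v, k, hv, hk', e⟩
    obtain ⟨v, rfl⟩ := hs v
    refine Subgroup.mem_sup.2 ⟨v, (hz a v).1 hv, v⁻¹ * x, ?_, mul_inv_cancel_left v x⟩
    have : φ (v⁻¹ * x) = k := by rw [map_mul, map_inv, ← e, inv_mul_cancel_left]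
    show φ (v⁻¹ * x) ∈ H
    rw [this]
    exact hk'

include hk in
lemma normGroup_ge (a : Fˣ) : φ.ker ≤ normGroup a := by
  intro b hb
  obtain ⟨c, rfl⟩ := (hk b).1 hb
  exact NormFrom.sq a c

include hs hk hz in
/-- membership in `N(a) N(b)` -/
lemma mem_sup_norm_iff (a b x : Fˣ) :
    x ∈ normGroup a ⊔ normGroup b ↔
      ∃ u v : S.G, S.q (φ a) u = S.zero ∧ S.q (φ b) v = S.zero ∧ u * v = φ x := by
  constructor
  · intro h
    obtain ⟨u, hu, v, hv, e⟩ := Subgroup.mem_sup.1 h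
    exact ⟨φ u, φ v, (hz a u).2 hu, (hz b v).2 hv, by rw [← map_mul, e]⟩
  · rintro ⟨u, v, hu, hv, e⟩
    obtain ⟨u, rfl⟩ := hs u
    obtain ⟨v, rfl⟩ := hs v
    have h1 : u⁻¹ * x * v⁻¹ ∈ φ.ker := by
      rw [MonoidHom.mem_ker, map_mul, map_mul, map_inv, map_inv, ← e, inv_mul_cancel_left,
        mul_inv_cancel]
    have h3 : u⁻¹ * x ∈ normGroup b := by
      have h4 := (normGroup b).mul_mem (normGroup_ge hk b h1) ((hz b v).1 hv)
      rwa [inv_mul_cancel_right] at h4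
    exact Subgroup.mem_sup.2 ⟨u, (hz a u).1 hu, u⁻¹ * x, h3, mul_inv_cancel_left u x⟩

include hs hz in
lemma step_iff (H : Subgroup S.G) : NormStep (H.comap φ) ↔ Step S H := by
  constructor
  · rintro ⟨a, ha, h⟩
    refine ⟨φ a, ha, fun b hb x hx => ?_⟩
    obtain ⟨b, rfl⟩ := hs b
    obtain ⟨x, rfl⟩ := hs x
    rw [← map_mul, hz] at hx
    exact (mem_sup_iff hs hz a x H).1 (h b hb hx)
  · rintro ⟨a, ha, h⟩
    obtain ⟨a, rfl⟩ := hs a
    refine ⟨a, ha, fun b hb x hx => ?_⟩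
    refine (mem_sup_iff hs hz a x H).2 (h (φ b) hb (φ x) ?_)
    rw [← map_mul, hz]
    exact hx

include hs hk hz in
lemma stepTwo_iff (H : Subgroup S.G) : NormStepTwo (H.comap φ) ↔ StepTwo S H := by
  have key : ∀ a g x : Fˣ, (x ∈ normGroup a ⊔ H.comap φ ∨ x ∈ normGroup (a * g) ⊔ H.comap φ ∨
      x ∈ normGroup a ⊔ normGroup (a * g)) ↔
      ((∃ v k : S.G, (S.q (φ a) v = S.zero ∨ S.q (φ a * φ g) v = S.zero) ∧ k ∈ H ∧ v * k = φ x) ∨
      ∃ v w : S.G, S.q (φ a) v = S.zero ∧ S.q (φ a * φ g) w = S.zero ∧ v * w = φ x) := by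
    intro a g x
    rw [mem_sup_iff hs hz, mem_sup_iff hs hz, mem_sup_norm_iff hs hk hz, map_mul, ← or_assoc]
    refine or_congr_left ?_
    constructor
    · rintro (⟨v, k, h1, h3, h4⟩ | ⟨v, k, h1, h3, h4⟩)
      · exact ⟨v, k, Or.inl h1, h3, h4⟩
      · exact ⟨v, k, Or.inr h1, h3, h4⟩
    · rintro ⟨v, k, h1 | h1, h3, h4⟩
      · exact Or.inl ⟨v, k, h1, h3, h4⟩
      · exact Or.inr ⟨v, k, h1, h3, h4⟩
  constructor
  · rintro ⟨a, ha, g, hg, h⟩
    refine ⟨φ a, ha, φ g, hg, fun b hb x hx => ?_⟩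
    obtain ⟨b, rfl⟩ := hs b
    obtain ⟨x, rfl⟩ := hs x
    rw [← map_mul, hz] at hx
    exact (key a g x).1 (h b hb x hx)
  · rintro ⟨a, ha, g, hg, h⟩
    obtain ⟨a, rfl⟩ := hs a
    obtain ⟨g, rfl⟩ := hs g
    refine ⟨a, ha, g, hg, fun b hb x hx => ?_⟩
    refine (key a g x).2 (h (φ b) hb (φ x) ?_)
    rw [← map_mul, hz]
    exact hx

variable (hq : ∀ a b c d : Fˣ, S.q (φ a) (φ b) = S.q (φ c) (φ d) ↔ QIso a b c d)

include hs hq in
lemma algebraStep_iff (H : Subgroup S.G) : AlgebraStep (H.comap φ) ↔ Common S H := by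
  constructor
  · rintro ⟨a, ha, h⟩
    refine ⟨φ a, ha, fun b hb x y hx => ?_⟩
    obtain ⟨b, rfl⟩ := hs b
    obtain ⟨x, rfl⟩ := hs x
    obtain ⟨y, rfl⟩ := hs y
    rw [hq] at hx
    obtain ⟨k, hk', e⟩ := h b hb x y hx
    exact ⟨φ k, hk', (hq _ _ _ _).2 e⟩
  · rintro ⟨a, ha, h⟩
    obtain ⟨a, rfl⟩ := hs a
    refine ⟨a, ha, fun b hb x y hx => ?_⟩
    obtain ⟨k, hk', e⟩ := h (φ b) hb (φ x) (φ y) ((hq _ _ _ _).2 hx)
    obtain ⟨k, rfl⟩ := hs k
    exact ⟨k, hk', (hq _ _ _ _).1 e⟩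

include hs hk hq in
lemma good_iff (L : Subgroup S.G) (a : Fˣ) : GoodFor (L.comap φ) a ↔ GoodOver S L (φ a) := by
  constructor
  · intro h H hL ha
    obtain ⟨g, hg, h1⟩ := h (H.comap φ) (Subgroup.comap_mono hL) ha
    refine ⟨φ g, hg, fun b hb x y hx => ?_⟩
    obtain ⟨b, rfl⟩ := hs b
    obtain ⟨x, rfl⟩ := hs x
    obtain ⟨y, rfl⟩ := hs y
    rw [hq] at hx
    rcases h1 b hb x y hx with ⟨k, hk', e⟩ | ⟨z, e⟩
    · exact Or.inl ⟨φ k, hk', (hq _ _ _ _).2 e⟩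
    · exact Or.inr ⟨φ z, (hq _ _ _ _).2 e⟩
  · intro h H hL ha
    have hsq : squares F ≤ H := (squares_le_comap hk L).trans hL
    have e0 := comap_map hk hsq
    have hL' : L ≤ H.map φ := by
      rw [← Subgroup.map_comap_eq_self_of_surjective hs L]
      exact Subgroup.map_mono hL
    have ha' : φ a ∉ H.map φ := by
      intro h1
      apply ha
      rw [← e0]
      exact h1
    obtain ⟨g, hg, h1⟩ := h (H.map φ) hL' ha'
    obtain ⟨g, hg', rfl⟩ := hg
    refine ⟨g, hg', fun b hb x y hx => ?_⟩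
    rcases h1 (φ b) (Subgroup.mem_map_of_mem φ hb) (φ x) (φ y) ((hq _ _ _ _).2 hx) with
      ⟨k, hk', e⟩ | ⟨z, e⟩
    · obtain ⟨k, hk'', rfl⟩ := hk'
      exact Or.inl ⟨k, hk'', (hq _ _ _ _).1 e⟩
    · obtain ⟨z, rfl⟩ := hs z
      exact Or.inr ⟨z, (hq _ _ _ _).1 e⟩

include hs hk in
lemma comap_sup (L : Subgroup S.G) (a : Fˣ) :
    (L ⊔ Subgroup.zpowers (φ a)).comap φ = L.comap φ ⊔ Subgroup.zpowers a := by
  have h1 : squares F ≤ L.comap φ ⊔ Subgroup.zpowers a :=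
    (squares_le_comap hk L).trans le_sup_left
  rw [← comap_map hk h1, Subgroup.map_sup, Subgroup.map_comap_eq_self_of_surjective hs,
    MonoidHom.map_zpowers]

include hs hk hq in
lemma chain_iff (L : Subgroup Fˣ) : NormChain L ↔ squares F ≤ L ∧ Chain S (L.map φ) := by
  constructor
  · intro h
    induction h with
    | base =>
      refine ⟨le_rfl, ?_⟩
      have : (squares F).map φ = ⊥ := by
        rw [← ker_eq hk, (Subgroup.map_eq_bot_iff _).2 le_rfl]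
      rw [this]
      exact Chain.bot
    | step L a _ hg ih =>
      refine ⟨ih.1.trans le_sup_left, ?_⟩
      rw [Subgroup.map_sup, MonoidHom.map_zpowers]
      refine Chain.step _ _ ih.2 ?_
      rw [← good_iff hs hk hq, comap_map hk ih.1]
      exact hg
  · rintro ⟨h1, h3⟩
    have key : ∀ M : Subgroup S.G, Chain S M → NormChain (M.comap φ) := by
      intro M hM
      induction hM with
      | bot =>
        have : (⊥ : Subgroup S.G).comap φ = squares F := by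
          rw [MonoidHom.comap_bot, ker_eq hk]
        rw [this]
        exact NormChain.base
      | step M a _ hg ih =>
        obtain ⟨a, rfl⟩ := hs a
        rw [comap_sup hs hk]
        exact NormChain.step _ _ ih ((good_iff hs hk hq M a).2 hg)
    have := key _ h3
    rwa [comap_map hk h1] at this

end tr

end Pool.Agent.Q300.FT
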