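import Pool.Agent.Q300.FT.One

/-! Fields in which products of norm groups are norm groups. -/

set_option autoImplicit false

namespace Pool.Agent.Q300.FT

open Pool.Agent.TH188.ET Pool.Agent.H315R3.ETC Pool.Agent.TH673.VG

section defs

variable (F : Type*) [Field F]

/-- the quaternionic structure of `F` is a direct product of structures with at most two
quaternions -/
def ProductOfTwos : Prop := ∃ S : QData, ProdTwo S ∧ IsStructureOf F S

/-- products of norm groups are norm groups: for all `a, b` there is `c` with `N(c) = N(a) N(b)` -/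
def NormProductsClosed : Prop := ∀ a b : Fˣ, ∃ c : Fˣ, normGroup c = normGroup a ⊔ normGroup b

/-- `N(a) N(b) N(ab) = F*` for all `a, b` -/
def NormTripleProducts : Prop :=
  ∀ a b : Fˣ, normGroup a ⊔ normGroup b ⊔ normGroup (a * b) = ⊤

/-- every norm group `N(a) ≠ F*` is contained in a norm group of index two -/
def NormIndexTwoAbove : Prop :=
  ∀ a : Fˣ, normGroup a ≠ ⊤ → ∃ t : Fˣ, normGroup a ≤ normGroup t ∧ (normGroup t).index = 2

/-- if `N(a)` is maximal among the norm groups different from `F*`, then every norm group `N(x)` is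
contained in `N(a)` or `N(a) N(x) = F*` -/
def NormMaximalDichotomy : Prop :=
  ∀ a : Fˣ, normGroup a ≠ ⊤ →
    (∀ b : Fˣ, normGroup a ≤ normGroup b → normGroup b = ⊤ ∨ normGroup b ≤ normGroup a) →
    ∀ x : Fˣ, normGroup x ≤ normGroup a ∨ normGroup a ⊔ normGroup x = ⊤

variable {F}

/-- every quaternion algebra over `F` is of the form `(s,z)`: it is split by `F(√s)` -/
def Splitter (s : Fˣ) : Prop := ∀ x y : Fˣ, ∃ z : Fˣ, QIso x y s z

variable (F)

/-- every norm group contains the norm group of a splitter -/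
def SplitterBelow : Prop := ∀ a : Fˣ, ∃ s : Fˣ, Splitter s ∧ normGroup s ≤ normGroup a

/-- every subgroup of index at most two which contains a norm group contains the norm group of a
splitter -/
def SplitterIndexTwo : Prop :=
  ∀ K : Subgroup Fˣ, K.index ≤ 2 → (∃ a : Fˣ, normGroup a ≤ K) →
    ∃ s : Fˣ, Splitter s ∧ normGroup s ≤ K

end defs

section tr

variable {F : Type*} [Field F] {S : QData} {φ : Fˣ →* S.G}
  (hs : Function.Surjective φ) (hk : ∀ a : Fˣ, φ a = 1 ↔ ∃ b : Fˣ, a = b ^ 2)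
  (hz : ∀ a b : Fˣ, S.q (φ a) (φ b) = S.zero ↔ NormFrom a b)
  (hq : ∀ a b c d : Fˣ, S.q (φ a) (φ b) = S.q (φ c) (φ d) ↔ QIso a b c d)

include hs hk hz in
lemma closed_iff : NormProductsClosed F ↔ ProductsClosed S := by
  constructor
  · intro h a b
    obtain ⟨a, rfl⟩ := hs a
    obtain ⟨b, rfl⟩ := hs b
    obtain ⟨c, hc⟩ := h a b
    refine ⟨φ c, fun x => ?_⟩
    obtain ⟨x, rfl⟩ := hs x
    rw [hz, ← mem_sup_norm_iff hs hk hz, ← hc]
    rfl
  · intro h a b
    obtain ⟨c, hc⟩ := h (φ a) (φ b)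
    obtain ⟨c, rfl⟩ := hs c
    refine ⟨c, ?_⟩
    ext x
    rw [mem_sup_norm_iff hs hk hz, ← hc, hz]
    rfl

include hs hk hz in
lemma triple_iff : NormTripleProducts F ↔ TripleProducts S := by
  constructor
  · intro h a b x
    obtain ⟨a, rfl⟩ := hs a
    obtain ⟨b, rfl⟩ := hs b
    obtain ⟨x, rfl⟩ := hs x
    have hx : x ∈ normGroup a ⊔ normGroup b ⊔ normGroup (a * b) := by rw [h]; trivial
    obtain ⟨y, hy, w, hw, e⟩ := Subgroup.mem_sup.1 hx
    obtain ⟨u, hu, v, hv, e'⟩ := Subgroup.mem_sup.1 hy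
    refine ⟨φ u, φ v, φ w, (hz _ _).2 hu, (hz _ _).2 hv, ?_, ?_⟩
    · rw [← map_mul]
      exact (hz _ _).2 hw
    · rw [← map_mul, ← map_mul, e', e]
  · intro h a b
    rw [eq_top_iff]
    intro x _
    obtain ⟨u, v, w, hu, hv, hw, e⟩ := h (φ a) (φ b) (φ x)
    obtain ⟨u, rfl⟩ := hs u
    obtain ⟨v, rfl⟩ := hs v
    obtain ⟨w, rfl⟩ := hs w
    rw [← map_mul, hz] at hw
    have h1 : (u * v * w)⁻¹ * x ∈ φ.ker := by
      rw [MonoidHom.mem_ker, map_mul, map_inv, map_mul, map_mul, e, inv_mul_cancel]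
    have h3 := normGroup_ge hk (a * b) h1
    refine Subgroup.mem_sup.2 ⟨u * v, Subgroup.mul_mem_sup ((hz _ _).1 hu) ((hz _ _).1 hv),
      w * ((u * v * w)⁻¹ * x), (normGroup (a * b)).mul_mem hw h3, ?_⟩
    rw [← mul_assoc, mul_inv_cancel_left]

include hs hz in
lemma ne_top_iff (a : Fˣ) : normGroup a ≠ ⊤ ↔ ∃ y : S.G, S.q (φ a) y ≠ S.zero := by
  constructor
  · intro h
    by_contra hcon
    push Not at hcon
    apply h
    rw [eq_top_iff]
    intro x _
    exact (hz _ _).1 (hcon (φ x))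
  · rintro ⟨y, hy⟩ h
    obtain ⟨y, rfl⟩ := hs y
    apply hy
    rw [hz]
    have : y ∈ normGroup a := by rw [h]; trivial
    exact this

include hs hz in
lemma le_iff (a b : Fˣ) : normGroup a ≤ normGroup b ↔
    ∀ x : S.G, S.q (φ a) x = S.zero → S.q (φ b) x = S.zero := by
  constructor
  · intro h x hx
    obtain ⟨x, rfl⟩ := hs x
    rw [hz] at hx ⊢
    exact h hx
  · intro h x hx
    exact (hz _ _).1 (h (φ x) ((hz _ _).2 hx))

include hs hk hz in
lemma indexTwoAbove_iff (hfin : Finite S.G) : NormIndexTwoAbove F ↔ IndexTwoAbove S := by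
  have hidx : ∀ a : Fˣ, (normGroup a).index ≠ 0 := by
    intro a h
    have h1 : φ.ker.index ≠ 0 := by
      have := Finite.of_equiv _ (QuotientGroup.quotientKerEquivOfSurjective φ hs).symm.toEquiv
      exact Subgroup.index_ne_zero_of_finite
    exact h1 (Nat.eq_zero_of_zero_dvd (h ▸ Subgroup.index_dvd_of_le (normGroup_ge hk a)))
  constructor
  · intro h a ha
    obtain ⟨a, rfl⟩ := hs a
    obtain ⟨t, ht, hi⟩ := h a ((ne_top_iff hs hz a).2 ha)
    refine ⟨φ t, (le_iff hs hz a t).1 ht, ?_, (index_two_iff hs hk hfin hz t).1 hi.le⟩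
    rw [← ne_top_iff hs hz]
    intro h1
    rw [h1, Subgroup.index_top] at hi
    omega
  · intro h a ha
    obtain ⟨t, ht, hi, hi'⟩ := h (φ a) ((ne_top_iff hs hz a).1 ha)
    obtain ⟨t, rfl⟩ := hs t
    refine ⟨t, (le_iff hs hz a t).2 ht, ?_⟩
    have h1 := (index_two_iff hs hk hfin hz t).2 hi'
    have h3 := hidx t
    have h4 : (normGroup t).index ≠ 1 := by
      intro h5
      exact (ne_top_iff hs hz t).2 hi (Subgroup.index_eq_one.1 h5)
    omega

include hs hk hz in
lemma dichotomy_iff : NormMaximalDichotomy F ↔ MaximalDichotomy S := by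
  have htop : ∀ b : Fˣ, normGroup b = ⊤ ↔ ∀ x : S.G, S.q (φ b) x = S.zero := by
    intro b
    have := ne_top_iff hs hz b
    rw [← not_iff_not]
    push Not
    exact this
  have hsup : ∀ a x : Fˣ, normGroup a ⊔ normGroup x = ⊤ ↔
      ∀ y : S.G, ∃ u v : S.G, S.q (φ a) u = S.zero ∧ S.q (φ x) v = S.zero ∧ u * v = y := by
    intro a x
    constructor
    · intro h y
      obtain ⟨y, rfl⟩ := hs y
      rw [← mem_sup_norm_iff hs hk hz, h]
      trivial
    · intro h
      rw [eq_top_iff]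
      intro y _
      rw [mem_sup_norm_iff hs hk hz]
      exact h (φ y)
  constructor
  · intro h a ha hmax x
    obtain ⟨a, rfl⟩ := hs a
    obtain ⟨x, rfl⟩ := hs x
    have h1 := h a ((ne_top_iff hs hz a).2 ha) (by
      intro b hb
      rcases hmax (φ b) ((le_iff hs hz a b).1 hb) with h3 | h3
      · exact Or.inl ((htop b).2 h3)
      · exact Or.inr ((le_iff hs hz b a).2 h3)) x
    rcases h1 with h1 | h1
    · exact Or.inl ((le_iff hs hz x a).1 h1)
    · exact Or.inr ((hsup a x).1 h1)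
  · intro h a ha hmax x
    have h1 := h (φ a) ((ne_top_iff hs hz a).1 ha) (by
      intro b hb
      obtain ⟨b, rfl⟩ := hs b
      rcases hmax b ((le_iff hs hz a b).2 hb) with h3 | h3
      · exact Or.inl ((htop b).1 h3)
      · exact Or.inr ((le_iff hs hz b a).1 h3)) (φ x)
    rcases h1 with h1 | h1
    · exact Or.inl ((le_iff hs hz x a).2 h1)
    · exact Or.inr ((hsup a x).2 h1)

include hs hq in
lemma splitter_iff (s : Fˣ) : Splitter s ↔ Universal S (φ s) := by
  constructor
  · intro h x y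
    obtain ⟨x, rfl⟩ := hs x
    obtain ⟨y, rfl⟩ := hs y
    obtain ⟨z, e⟩ := h x y
    exact ⟨φ z, (hq _ _ _ _).2 e⟩
  · intro h x y
    obtain ⟨z, e⟩ := h (φ x) (φ y)
    obtain ⟨z, rfl⟩ := hs z
    exact ⟨z, (hq _ _ _ _).1 e⟩

include hs hz hq in
lemma below_iff : SplitterBelow F ↔ UniversalBelow S := by
  constructor
  · intro h a
    obtain ⟨a, rfl⟩ := hs a
    obtain ⟨s, h1, h3⟩ := h a
    exact ⟨φ s, (splitter_iff hs hq s).1 h1, (le_iff hs hz s a).1 h3⟩
  · intro h a
    obtain ⟨s, h1, h3⟩ := h (φ a)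
    obtain ⟨s, rfl⟩ := hs s
    exact ⟨s, (splitter_iff hs hq s).2 h1, (le_iff hs hz s a).2 h3⟩

/-- the kernel of a homomorphism to `Z/2` has index at most two -/
lemma index_ker_le {G : Type*} [Group G] (f : G → ZMod 2) (hf : ∀ a b, f (a * b) = f a + f b) :
    ∃ K : Subgroup G, (∀ a, a ∈ K ↔ f a = 0) ∧ K.index ≤ 2 := by
  have f1 : f 1 = 0 := by
    have := hf 1 1
    rw [mul_one] at this
    simpa using this
  let g : G →* Multiplicative (ZMod 2) :=
    { toFun := fun a => Multiplicative.ofAdd (f a)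
      map_one' := by rw [f1]; rfl
      map_mul' := fun a b => by rw [hf]; rfl }
  refine ⟨g.ker, fun a => ?_, ?_⟩
  · rw [MonoidHom.mem_ker]
    exact Iff.rfl
  · rw [Subgroup.index_ker]
    have h1 : Nat.card (Multiplicative (ZMod 2)) = 2 := by
      rw [Nat.card_eq_fintype_card]; rfl
    exact (Subgroup.card_le_card_group g.range).trans h1.le

/-- a subgroup of index one or two is the kernel of a homomorphism to `Z/2` -/
lemma exists_hom {G : Type*} [CommGroup G] (K : Subgroup G) (hi : K.index ≤ 2) (h0 : K.index ≠ 0) :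
    ∃ f : G → ZMod 2, (∀ a b, f (a * b) = f a + f b) ∧ ∀ a, f a = 0 ↔ a ∈ K := by
  classical
  have h1 : K.index = 1 ∨ K.index = 2 := by omega
  rcases h1 with h1 | h1
  · have := Subgroup.index_eq_one.1 h1
    subst this
    exact ⟨fun _ => 0, fun _ _ => by simp, fun _ => by simp⟩
  · refine ⟨fun a => if a ∈ K then 0 else 1, fun a b => ?_, fun a => ?_⟩
    · have h3 := Subgroup.mul_mem_iff_of_index_two h1 (a := a) (b := b)
      by_cases ha : a ∈ K
      · by_cases hb : b ∈ K
        · simp [ha, hb, K.mul_mem ha hb]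
        · have : a * b ∉ K := fun h => hb ((h3.1 h).1 ha)
          simp [ha, hb, this]
      · by_cases hb : b ∈ K
        · have : a * b ∉ K := fun h => ha ((h3.1 h).2 hb)
          simp [ha, hb, this]
        · have : a * b ∈ K := h3.2 ⟨fun h => absurd h ha, fun h => absurd h hb⟩
          simp [ha, hb, this]
          decide
    · by_cases ha : a ∈ K
      · simp [ha]
      · simp [ha]

include hs hk hz hq in
lemma kernels_iff (hfin : Finite S.G) : SplitterIndexTwo F ↔ UniversalKernels S := by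
  have hidx : φ.ker.index ≠ 0 := by
    have := Finite.of_equiv _ (QuotientGroup.quotientKerEquivOfSurjective φ hs).symm.toEquiv
    exact Subgroup.index_ne_zero_of_finite
  constructor
  · rintro h f hf ⟨a, ha⟩
    obtain ⟨K, hK, hi⟩ := index_ker_le (fun x : Fˣ => f (φ x)) (fun x y => by rw [map_mul, hf])
    obtain ⟨a, rfl⟩ := hs a
    obtain ⟨s, h1, h3⟩ := h K hi ⟨a, fun x hx => (hK x).2 (ha (φ x) ((hz _ _).2 hx))⟩
    refine ⟨φ s, (splitter_iff hs hq s).1 h1, fun x hx => ?_⟩
    obtain ⟨x, rfl⟩ := hs x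
    exact (hK x).1 (h3 ((hz _ _).1 hx))
  · rintro h K hi ⟨a, ha⟩
    have hker : φ.ker ≤ K := (normGroup_ge hk a).trans ha
    have h0 : K.index ≠ 0 := fun h => hidx (Nat.eq_zero_of_zero_dvd (h ▸ Subgroup.index_dvd_of_le hker))
    have e : (K.map φ).comap φ = K := Subgroup.comap_map_eq_self hker
    have e' : (K.map φ).index = K.index := by
      rw [← Subgroup.index_comap_of_surjective _ hs, e]
    obtain ⟨f, hf, hf0⟩ := exists_hom (K.map φ) (by rw [e']; exact hi) (by rw [e']; exact h0)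
    have hmem : ∀ x : Fˣ, f (φ x) = 0 ↔ x ∈ K := by
      intro x
      rw [hf0]
      constructor
      · intro h1
        rw [← e]
        exact h1
      · exact Subgroup.mem_map_of_mem φ
    obtain ⟨s, h1, h3⟩ := h f hf ⟨φ a, fun x hx => by
      obtain ⟨x, rfl⟩ := hs x
      exact (hmem x).2 (ha ((hz _ _).1 hx))⟩
    obtain ⟨s, rfl⟩ := hs s
    exact ⟨s, (splitter_iff hs hq s).2 h1, fun x hx => (hmem x).1 (h3 (φ x) ((hz _ _).2 hx))⟩

include hs hk hz in
lemma closure_iff (h2 : (2 : F) ≠ 0) (hfin : Finite S.G) :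
    Subgroup.closure {a : Fˣ | (normGroup a).index ≤ 2} = ⊤ ↔ IdxGroup S = ⊤ := by
  have hmap : (Subgroup.closure {a : Fˣ | (normGroup a).index ≤ 2}).map φ = IdxGroup S := by
    rw [MonoidHom.map_closure, IdxGroup]
    congr 1
    ext x
    constructor
    · rintro ⟨a, ha, rfl⟩
      exact (index_two_iff hs hk hfin hz a).1 ha
    · intro hx
      obtain ⟨a, rfl⟩ := hs x
      exact ⟨a, (index_two_iff hs hk hfin hz a).2 hx, rfl⟩
  have hker : squares F ≤ Subgroup.closure {a : Fˣ | (normGroup a).index ≤ 2} := by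
    intro b hb
    apply Subgroup.subset_closure
    have ht : normGroup b = ⊤ := by
      rw [eq_top_iff]
      intro c _
      rw [← ker_eq hk] at hb
      exact NormFrom.of_sq h2 b c ((hk b).1 hb)
    show (normGroup b).index ≤ 2
    rw [ht, Subgroup.index_top]
    norm_num
  rw [← hmap]
  constructor
  · intro h
    rw [h, ← MonoidHom.range_eq_map, MonoidHom.range_eq_top.2 hs]
  · intro h
    rw [← comap_map hk hker, h, Subgroup.comap_top]

end tr

theorem products {F : Type*} [Field F] (h2 : (2 : F) ≠ 0) (hfin : FinSq F) :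
    (ProductOfTwos F → ElementaryType F) ∧
    (ProductOfTwos F ↔ NormProductsClosed F) ∧
    (ProductOfTwos F ↔ NormTripleProducts F ∧ NormIndexTwoAbove F) ∧
    (ProductOfTwos F ↔ NormTripleProducts F ∧ NormMaximalDichotomy F) ∧
    (ProductOfTwos F ↔ NormTripleProducts F ∧ ElementaryType F) ∧
    (ProductOfTwos F ↔ SplitterBelow F) ∧
    (ProductOfTwos F ↔ SplitterIndexTwo F) ∧
    (ProductOfTwos F ↔ Subgroup.closure {a : Fˣ | (normGroup a).index ≤ 2} = ⊤) := by
  obtain ⟨S, hS, hSfin, hSq⟩ := exists_structure h2 hfin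
  have hE := elementary_iff hS
  have hP : ProductOfTwos F ↔ ProdTwo S :=
    ⟨fun ⟨T, hT, hTs⟩ => ProdTwo.iso T S hT hSq (iso_of_structure hTs hS), fun h => ⟨S, h, hS⟩⟩
  obtain ⟨φ, hs, hk, hn, h0, hq⟩ := hS
  have hz : ∀ a b : Fˣ, S.q (φ a) (φ b) = S.zero ↔ NormFrom a b := by
    intro a b
    rw [← qiso_one h2, ← h0, ← map_one φ]
    exact hq a b 1 1
  have hq' : ∀ a b c d : Fˣ, S.q (φ a) (φ b) = S.q (φ c) (φ d) ↔ QIso a b c d := hq
  obtain ⟨c1, c2, c3, c4, c5, c6, c7⟩ := prod_abs S hSq hSfin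
  rw [hP, hE, closed_iff hs hk hz, triple_iff hs hk hz, indexTwoAbove_iff hs hk hz hSfin,
    dichotomy_iff hs hk hz, below_iff hs hz hq', kernels_iff hs hk hz hq' hSfin,
    closure_iff hs hk hz h2 hSfin]
  exact ⟨fun h => (c4.1 h).2, c1, c2, c3, c4, c5, c6, c7⟩

end Pool.Agent.Q300.FT
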